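import Pool.Agent.K3U.Fact

/-!
The invariant is kept by both kinds of blocks.
-/

open Finset

namespace Pool.Agent.TwoDens.K3U

theorem arith_h {θ v : ℝ} {N E n e : ℕ} {a b c A C B : Bool} (t1 : 1 / 2 ≤ θ) (t2 : θ ≤ 4 / 7)
    (v1 : v ≤ 2 - 2 * θ) (h8 : n ≤ 8)
    (f2 : fact2 (a.toNat + b.toNat + c.toNat) n e A C B = true)
    (f1 : fact1 (a.toNat + b.toNat + c.toNat) n e A C B = true)
    (f0 : fact0 (a.toNat + b.toNat + c.toNat) n e A C B = true)
    (hp : Pre θ v N E a b c) (hN : 2 ≤ N + n) :
    Inv θ (v + 8 * θ - 4) (N + n) (E + e) A B C := by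
  have n8 : (n : ℝ) ≤ 8 := by exact_mod_cast h8
  have n0 : (0 : ℝ) ≤ n := Nat.cast_nonneg _
  have p1 : 0 ≤ (θ - 1 / 2) * n := mul_nonneg (by linarith) n0
  have p2 : 0 ≤ (4 / 7 - θ) * (8 - n) := mul_nonneg (by linarith) (by linarith)
  unfold Inv
  push_cast
  rcases hp with ⟨h2, i1, i2, i3⟩ | ⟨h1, he, hq⟩ | ⟨h0, he, hq⟩
  · -- at least two vertices before
    clear f1 f0
    simp only [fact2, Bool.and_eq_true, decide_eq_true_eq, Bool.or_eq_true, Bool.not_eq_true',
      Bool.and_eq_false_imp] at f2
    obtain ⟨⟨g1, g2⟩, g3⟩ := f2
    have g1R : 2 * (e : ℝ) ≤ 3 * n := by exact_mod_cast g1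
    refine ⟨by linarith, ?_, ?_⟩
    · intro hA hB hC
      obtain ⟨k1, k2⟩ := g2.resolve_left (by rw [hA, hB, hC]; decide)
      have k1R : 7 * (e : ℝ) + 4 ≤ 11 * n := by exact_mod_cast k1
      rcases k2 with k2 | k2
      · have q1 : a = true ∧ b = true ∧ c = true := by
          revert k2
          cases a <;> cases b <;> cases c <;> decide
        have := i2 q1.1 q1.2.1 q1.2.2
        linarith
      · have k2R : 7 * (e : ℝ) + 11 ≤ 11 * n := by exact_mod_cast k2
        linarith
    · intro hA hB hC
      obtain ⟨⟨k0, k1⟩, k2⟩ := g3.resolve_left (by rw [hA, hB, hC]; decide)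
      have k0R : (n : ℝ) ≤ 7 := by exact_mod_cast k0
      have k1R : 7 * (e : ℝ) + 7 ≤ 11 * n := by exact_mod_cast k1
      have p3 : 0 ≤ (4 / 7 - θ) * (7 - n) := mul_nonneg (by linarith) (by linarith)
      rcases k2 with k2 | k2
      · have q1 : a = true ∧ b = true ∧ c = true := by
          revert k2
          cases a <;> cases b <;> cases c <;> decide
        have := i2 q1.1 q1.2.1 q1.2.2
        right
        linarith
      · have k2R : 2 * (e : ℝ) + 2 ≤ 3 * n := by exact_mod_cast k2
        left
        linarith
  · -- one vertex before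
    clear f2 f0
    simp only [fact1, Bool.and_eq_true, decide_eq_true_eq, Bool.or_eq_true, Bool.not_eq_true',
      Bool.and_eq_false_imp, decide_eq_false_iff_not] at f1
    obtain ⟨⟨g1, g2⟩, g3⟩ := f1.resolve_left (by omega)
    rw [h1, he]
    push_cast
    have n1 : (1 : ℝ) ≤ n := by
      have : 1 ≤ n := by omega
      exact_mod_cast this
    have p4 : 0 ≤ (θ - 1 / 2) * (n - 1) := mul_nonneg (by linarith) (by linarith)
    have g1R : 2 * (e : ℝ) + 1 ≤ 3 * n := by
      have := g1.resolve_left (by omega)
      exact_mod_cast this
    refine ⟨by linarith, ?_, ?_⟩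
    · intro hA hB hC
      obtain ⟨k1, k2⟩ := g2.resolve_left (by rw [hA, hB, hC]; decide)
      have k1R : 7 * (e : ℝ) + 14 ≤ 11 * n := by exact_mod_cast k1
      have k2R : 2 * (e : ℝ) + 3 ≤ 3 * n := by exact_mod_cast k2
      rcases Nat.lt_or_ge n 8 with h | h
      · have k0R : (n : ℝ) ≤ 7 := by
          have : n ≤ 7 := by omega
          exact_mod_cast this
        have p3 : 0 ≤ (4 / 7 - θ) * (7 - n) := mul_nonneg (by linarith) (by linarith)
        linarith
      · have k0 : n = 8 := by omega
        rw [k0] at k2R ⊢
        push_cast at k2R ⊢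
        linarith
    · intro hA hB hC
      left
      have k1 := g3.resolve_left (by rw [hA, hB, hC]; decide)
      have k1R : 2 * (e : ℝ) + 3 ≤ 3 * n := by exact_mod_cast k1
      linarith
  · -- nothing before
    clear f2 f1
    simp only [fact0, Bool.and_eq_true, decide_eq_true_eq, Bool.or_eq_true, Bool.not_eq_true',
      Bool.and_eq_false_imp, decide_eq_false_iff_not] at f0
    obtain ⟨⟨g1, g2⟩, g3⟩ := f0.resolve_left (by omega)
    rw [h0, he]
    push_cast
    have n1 : (2 : ℝ) ≤ n := by
      have : 2 ≤ n := by omega
      exact_mod_cast this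
    have p4 : 0 ≤ (θ - 1 / 2) * (n - 2) := mul_nonneg (by linarith) (by linarith)
    have g1R : 2 * (e : ℝ) + 4 ≤ 3 * n := by
      have := g1.resolve_left (by omega)
      exact_mod_cast this
    refine ⟨by linarith, ?_, ?_⟩
    · intro hA hB hC
      have k1 := g2.resolve_left (by rw [hA, hB, hC]; decide)
      have k1R : 7 * (e : ℝ) + 25 ≤ 11 * n := by exact_mod_cast k1
      linarith
    · intro hA hB hC
      left
      have k1 := g3.resolve_left (by rw [hA, hB, hC]; decide)
      have k1R : 2 * (e : ℝ) + 6 ≤ 3 * n := by exact_mod_cast k1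
      linarith

theorem arith_u {θ v : ℝ} {N E : ℕ} {a b c A C B : Bool} (t1 : 1 / 2 ≤ θ)
    (v0 : 1 - θ ≤ v) (v1 : v ≤ 2 - 2 * θ)
    (hp : Pre θ v N E a b c) (hN : 2 ≤ N + (A.toNat + C.toNat + B.toNat)) :
    Inv θ (v + 3 * θ - 2) (N + (A.toNat + C.toNat + B.toNat)) (E + uE a b c A C B) A B C := by
  unfold Inv uE
  rcases hp with ⟨h2, i1, i2, i3⟩ | ⟨h1, he, hq⟩ | ⟨h0, he, hq⟩
  · have i4 : a = true → b = true → 2 + θ ≤ (1 + θ) * N - E := by
      intro ha hb
      cases hc : c with
      | true =>
        have := i2 ha hb hc
        linarith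
      | false =>
        rcases i3 ha hb hc with h | h <;> linarith
    cases a <;> cases b <;> cases c <;> simp only [reduceCtorEq, forall_true_left, IsEmpty.forall_iff] at i2 i3 i4 <;>
      cases A <;> cases C <;> cases B <;>
      simp only [Bool.toNat_true, Bool.toNat_false] <;> push_cast <;>
      refine ⟨by linarith, fun x y z => ?_, fun x y z => ?_⟩ <;>
      first
        | exact absurd x (by decide)
        | exact absurd y (by decide)
        | exact absurd z (by decide)
        | linarith
        | (left; linarith)
        | (right; linarith)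
  · rw [h1, he]
    rw [h1] at hN
    cases a <;> cases b <;> cases c <;> simp only [Bool.toNat_true, Bool.toNat_false] at hq <;>
      first
        | (exfalso; omega)
        | (cases A <;> cases C <;> cases B <;>
            simp only [Bool.toNat_true, Bool.toNat_false] at hN ⊢ <;>
            first
              | (exfalso; omega)
              | (push_cast
                 refine ⟨by linarith, fun x y z => ?_, fun x y z => ?_⟩ <;>
                 first
                  | exact absurd x (by decide)
                  | exact absurd y (by decide)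
                  | exact absurd z (by decide)
                  | linarith
                  | (left; linarith)))
  · rw [h0, he]
    rw [h0] at hN
    cases a <;> cases b <;> cases c <;> simp only [Bool.toNat_true, Bool.toNat_false] at hq <;>
      first
        | (exfalso; omega)
        | (cases A <;> cases C <;> cases B <;>
            simp only [Bool.toNat_true, Bool.toNat_false] at hN ⊢ <;>
            first
              | (exfalso; omega)
              | (push_cast
                 refine ⟨by linarith, fun x y z => ?_, fun x y z => ?_⟩ <;>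
                 first
                  | exact absurd x (by decide)
                  | exact absurd y (by decide)
                  | exact absurd z (by decide)
                  | linarith
                  | (left; linarith)))

end Pool.Agent.TwoDens.K3U
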