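import Pool.Agent.K3U.Part

/-!
The two kinds of blocks: the counts and the facts checked over all cases.
-/

open Finset

namespace Pool.Agent.TwoDens.K3U

/-- new edges of a small block; `A`, `C`, `B` are the new vertices -/
def uE (a b c A C B : Bool) : ℕ :=
  A.toNat * (a.toNat + b.toNat) + C.toNat * A.toNat + B.toNat * (C.toNat + c.toNat)

/-- new vertices of a large block: a hexagon and `C`, `B` -/
def hN (h0 h1 h2 h3 h4 h5 C B : Bool) : ℕ :=
  h0.toNat + h1.toNat + h2.toNat + h3.toNat + h4.toNat + h5.toNat + C.toNat + B.toNat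

/-- new edges of a large block -/
def hE (a b c h0 h1 h2 h3 h4 h5 C B : Bool) : ℕ :=
  h0.toNat * b.toNat + h1.toNat * h0.toNat + h2.toNat * (h1.toNat + a.toNat) +
    h3.toNat * h2.toNat + h4.toNat * (h3.toNat + c.toNat) + h5.toNat * (h4.toNat + h0.toNat) +
    C.toNat * h1.toNat + B.toNat * (h3.toNat + C.toNat)

/-- facts used before a large block if at least two vertices have been seen -/
def fact2 (q n e : ℕ) (A C B : Bool) : Bool :=
  (decide (2 * e ≤ 3 * n)) && (!(A && B && C) || (decide (7 * e + 4 ≤ 11 * n) &&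
    (decide (q = 3) || decide (7 * e + 11 ≤ 11 * n)))) &&
  (!(A && B && !C) || (decide (n ≤ 7) && decide (7 * e + 7 ≤ 11 * n) &&
    (decide (q = 3) || decide (2 * e + 2 ≤ 3 * n))))

/-- one vertex has been seen -/
def fact1 (q n e : ℕ) (A C B : Bool) : Bool :=
  !(decide (q ≤ 1)) || ((decide (n = 0) || decide (2 * e + 1 ≤ 3 * n)) &&
    (!(A && B && C) || (decide (7 * e + 14 ≤ 11 * n) && decide (2 * e + 3 ≤ 3 * n))) &&
    (!(A && B && !C) || decide (2 * e + 3 ≤ 3 * n)))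

/-- nothing has been seen -/
def fact0 (q n e : ℕ) (A C B : Bool) : Bool :=
  !(decide (q = 0)) || ((decide (n ≤ 1) || decide (2 * e + 4 ≤ 3 * n)) &&
    (!(A && B && C) || decide (7 * e + 25 ≤ 11 * n)) &&
    (!(A && B && !C) || decide (2 * e + 6 ≤ 3 * n)))

/-- facts about independent sets -/
def factI (q n e : ℕ) (A C B : Bool) : Bool :=
  !(decide (e = 0)) || (decide (n ≤ 4) && (A || C || B || decide (n ≤ 3)) &&
    (decide (q = 0) || (decide (n ≤ 3) && (A || C || B || decide (n ≤ 2)))))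

theorem hfact : ∀ a b c h0 h1 h2 h3 h4 h5 C B : Bool,
    (decide (hN h0 h1 h2 h3 h4 h5 C B ≤ 8) &&
    fact2 (a.toNat + b.toNat + c.toNat) (hN h0 h1 h2 h3 h4 h5 C B)
      (hE a b c h0 h1 h2 h3 h4 h5 C B) h5 C B &&
    fact1 (a.toNat + b.toNat + c.toNat) (hN h0 h1 h2 h3 h4 h5 C B)
      (hE a b c h0 h1 h2 h3 h4 h5 C B) h5 C B &&
    fact0 (a.toNat + b.toNat + c.toNat) (hN h0 h1 h2 h3 h4 h5 C B)
      (hE a b c h0 h1 h2 h3 h4 h5 C B) h5 C B &&
    factI (a.toNat + b.toNat + c.toNat) (hN h0 h1 h2 h3 h4 h5 C B)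
      (hE a b c h0 h1 h2 h3 h4 h5 C B) h5 C B) = true := by
  decide

end Pool.Agent.TwoDens.K3U
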