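import Pool.Agent.K3S.Pc
import Pool.Agent.K3A.NatG
import Pool.Agent.TwoDens.RK

/-!
Graphs given by lists of earlier neighbours, and partial chains.
-/

open Finset

namespace Pool.Agent.TwoDens.K3U

open Pool.Agent.TwoDens Pool.Agent.TwoDens.RK

/-- number of chosen vertices below `n` -/
def cn (s : ℕ → Bool) (n : ℕ) : ℕ := ∑ x ∈ range n, (s x).toNat

/-- number of chosen members of a list -/
def ls (s : ℕ → Bool) : List ℕ → ℕ
  | [] => 0
  | u :: l => (s u).toNat + ls s l

/-- number of chosen pairs `x, u` with `u` in the list of `x` -/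
def en (T : ℕ → List ℕ) (s : ℕ → Bool) (n : ℕ) : ℕ :=
  ∑ x ∈ range n, (s x).toNat * ls s (T x)

theorem cn_succ (s : ℕ → Bool) (n : ℕ) : cn s (n + 1) = cn s n + (s n).toNat := sum_range_succ _ _

theorem en_succ (T : ℕ → List ℕ) (s : ℕ → Bool) (n : ℕ) :
    en T s (n + 1) = en T s n + (s n).toNat * ls s (T n) := sum_range_succ _ _

theorem two_le {s : ℕ → Bool} {n x y : ℕ} (hx : x < n) (hy : y < n) (hxy : x ≠ y)
    (sx : s x = true) (sy : s y = true) : 2 ≤ cn s n := by
  have h : ∑ z ∈ ({x, y} : Finset ℕ), (s z).toNat ≤ cn s n := by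
    refine sum_le_sum_of_subset ?_
    intro z hz
    rw [mem_insert, mem_singleton] at hz
    rcases hz with rfl | rfl
    · exact mem_range.2 hx
    · exact mem_range.2 hy
  rw [sum_pair hxy, sx, sy] at h
  exact h

theorem one_le {s : ℕ → Bool} {n x : ℕ} (hx : x < n) (sx : s x = true) : 1 ≤ cn s n := by
  have h : ∑ z ∈ ({x} : Finset ℕ), (s z).toNat ≤ cn s n := by
    refine sum_le_sum_of_subset ?_
    intro z hz
    rw [mem_singleton] at hz
    rw [hz]
    exact mem_range.2 hx
  rw [sum_singleton, sx] at h
  exact h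

theorem ls_zero {s : ℕ → Bool} : ∀ {l : List ℕ}, (∀ u ∈ l, s u = false) → ls s l = 0
  | [], _ => rfl
  | u :: l, h => by
    show (s u).toNat + ls s l = 0
    rw [h u (by simp), ls_zero (fun w hw => h w (by simp [hw]))]
    rfl

theorem en_zero {T : ℕ → List ℕ} {s : ℕ → Bool} {n : ℕ} (hT : ∀ x < n, ∀ u ∈ T x, u < x)
    (h : cn s n ≤ 1) : en T s n = 0 := by
  refine sum_eq_zero ?_
  intro x hx
  have hx' := mem_range.1 hx
  cases sx : s x with
  | false => simp
  | true =>
    rw [ls_zero, mul_zero]
    intro u hu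
    have hu' := hT x hx' u hu
    cases su : s u with
    | false => rfl
    | true =>
      have := two_le (by omega) hx' (by omega) su sx
      omega

/-- new vertices with given lists on top of the numbers below `n` -/
def ext (T : ℕ → List ℕ) (n : ℕ) (L : List (List ℕ)) : ℕ → List ℕ := fun x =>
  if x < n then T x else L.getD (x - n) []

theorem ext_lt {T : ℕ → List ℕ} {n : ℕ} {L : List (List ℕ)} {x : ℕ} (h : x < n) :
    ext T n L x = T x := by
  unfold ext
  rw [if_pos h]

theorem ext_add (T : ℕ → List ℕ) (n : ℕ) (L : List (List ℕ)) (k : ℕ) :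
    ext T n L (n + k) = L.getD k [] := by
  unfold ext
  rw [if_neg (by omega), Nat.add_sub_cancel_left]

theorem en_ext (T : ℕ → List ℕ) (n : ℕ) (L : List (List ℕ)) (s : ℕ → Bool) :
    en (ext T n L) s n = en T s n := by
  refine sum_congr rfl ?_
  intro x hx
  rw [ext_lt (mem_range.1 hx)]

/-- The invariant of the density count: `N` vertices and `E` edges in the part of the set seen so
far, `a`, `b`, `c` tell which of the three vertices with later neighbours are in the set. -/
def Inv (θ v : ℝ) (N E : ℕ) (a b c : Bool) : Prop :=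
  1 + 2 * θ ≤ (1 + θ) * N - E ∧
  (a = true → b = true → c = true → 1 + 2 * θ + v ≤ (1 + θ) * N - E) ∧
  (a = true → b = true → c = false →
    2 + 2 * θ ≤ (1 + θ) * N - E ∨ v + 2 + θ ≤ (1 + θ) * N - E)

/-- the possible situations before a block -/
def Pre (θ v : ℝ) (N E : ℕ) (a b c : Bool) : Prop :=
  (2 ≤ N ∧ Inv θ v N E a b c) ∨ (N = 1 ∧ E = 0 ∧ a.toNat + b.toNat + c.toNat ≤ 1) ∨
    (N = 0 ∧ E = 0 ∧ a.toNat + b.toNat + c.toNat = 0)

/-- partial chains -/
def PC (θ : ℝ) (n al : ℕ) (v : ℝ) : Prop :=
  ∃ (T : ℕ → List ℕ) (a b c : ℕ), (a < n ∧ b < n ∧ c < n ∧ a ≠ b ∧ a ≠ c ∧ b ≠ c) ∧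
    (∀ x < n, ∀ u ∈ T x, u < x) ∧
    (∀ s : ℕ → Bool, 2 ≤ cn s n → Inv θ v (cn s n) (en T s n) (s a) (s b) (s c)) ∧
    (∀ s : ℕ → Bool, en T s n = 0 → cn s n ≤ al ∧
      (s a = false → s b = false → s c = false → cn s n + 1 ≤ al))

theorem pre_of {θ v : ℝ} {n : ℕ} {T : ℕ → List ℕ} {a b c : ℕ}
    (h1 : a < n ∧ b < n ∧ c < n ∧ a ≠ b ∧ a ≠ c ∧ b ≠ c)
    (h2 : ∀ x < n, ∀ u ∈ T x, u < x)
    (h3 : ∀ s : ℕ → Bool, 2 ≤ cn s n → Inv θ v (cn s n) (en T s n) (s a) (s b) (s c))
    (s : ℕ → Bool) : Pre θ v (cn s n) (en T s n) (s a) (s b) (s c) := by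
  obtain ⟨ha, hb, hc, hab, hac, hbc⟩ := h1
  rcases Nat.lt_or_ge (cn s n) 2 with h | h
  · right
    have he := en_zero h2 (by omega : cn s n ≤ 1)
    have f1 : s a = true → s b = true → False := fun x y => by
      have := two_le ha hb hab x y
      omega
    have f2 : s a = true → s c = true → False := fun x y => by
      have := two_le ha hc hac x y
      omega
    have f3 : s b = true → s c = true → False := fun x y => by
      have := two_le hb hc hbc x y
      omega
    have g1 : s a = true → 1 ≤ cn s n := one_le ha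
    have g2 : s b = true → 1 ≤ cn s n := one_le hb
    have g3 : s c = true → 1 ≤ cn s n := one_le hc
    rcases Nat.eq_zero_or_pos (cn s n) with h0 | h0
    · right
      refine ⟨h0, he, ?_⟩
      cases sa : s a with
      | true => exact absurd (g1 sa) (by omega)
      | false =>
        cases sb : s b with
        | true => exact absurd (g2 sb) (by omega)
        | false =>
          cases sc : s c with
          | true => exact absurd (g3 sc) (by omega)
          | false => rfl
    · left
      refine ⟨by omega, he, ?_⟩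
      cases sa : s a with
      | true =>
        cases sb : s b with
        | true => exact (f1 sa sb).elim
        | false =>
          cases sc : s c with
          | true => exact (f2 sa sc).elim
          | false => decide
      | false =>
        cases sb : s b with
        | true =>
          cases sc : s c with
          | true => exact (f3 sb sc).elim
          | false => decide
        | false =>
          cases sc : s c with
          | true => decide
          | false => decide
  · left
    exact ⟨h, h3 s h⟩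

/-! ### From a partial chain to a graph -/

/-- the graph of the lists -/
def gr (T : ℕ → List ℕ) : SimpleGraph ℕ where
  Adj x y := (y < x ∧ y ∈ T x) ∨ (x < y ∧ x ∈ T y)
  symm := ⟨fun _ _ h => h.symm⟩
  loopless := ⟨fun x h => by
    rcases h with h | h <;> exact absurd h.1 (lt_irrefl x)⟩

instance (T : ℕ → List ℕ) : DecidableRel (gr T).Adj := fun x y =>
  inferInstanceAs (Decidable ((y < x ∧ y ∈ T x) ∨ (x < y ∧ x ∈ T y)))

theorem card_le_ls {s : ℕ → Bool} : ∀ {l : List ℕ} {X : Finset ℕ},
    (∀ u ∈ X, u ∈ l ∧ s u = true) → X.card ≤ ls s l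
  | [], X, h => by
    have : X = ∅ := by
      rw [eq_empty_iff_forall_notMem]
      intro u hu
      exact absurd (h u hu).1 (by simp)
    rw [this]
    exact Nat.zero_le _
  | w :: l, X, h => by
    show X.card ≤ (s w).toNat + ls s l
    have h1 : (X.erase w).card ≤ ls s l := by
      refine card_le_ls ?_
      intro u hu
      rw [mem_erase] at hu
      have := h u hu.2
      rw [List.mem_cons] at this
      exact ⟨this.1.resolve_left hu.1, this.2⟩
    by_cases hw : w ∈ X
    · have h2 := card_erase_add_one hw
      rw [(h w hw).2]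
      have : (true : Bool).toNat = 1 := rfl
      omega
    · rw [erase_eq_of_notMem hw] at h1
      omega

theorem e2_le {T : ℕ → List ℕ} {S : Finset ℕ} : ∀ k,
    e2 (gr T) (S.filter (· < k)) ≤ 2 * en T (fun x => decide (x ∈ S)) k := by
  intro k
  induction k with
  | zero =>
    have : S.filter (· < 0) = ∅ := by
      rw [eq_empty_iff_forall_notMem]
      intro u hu
      rw [mem_filter] at hu
      omega
    rw [this]
    exact Nat.zero_le _
  | succ k ih =>
    rw [en_succ]
    by_cases hk : k ∈ S
    · have h1 : S.filter (· < k + 1) = insert k (S.filter (· < k)) := by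
        ext u
        rw [mem_insert, mem_filter, mem_filter]
        constructor
        · rintro ⟨h1, h2⟩
          rcases Nat.lt_or_ge u k with h3 | h3
          · exact Or.inr ⟨h1, h3⟩
          · exact Or.inl (by omega)
        · rintro (rfl | ⟨h1, h2⟩)
          · exact ⟨hk, by omega⟩
          · exact ⟨h1, by omega⟩
      have h2 : k ∉ S.filter (· < k) := by
        rw [mem_filter]
        omega
      have h3 : e2 (gr T) (insert k (S.filter (· < k))) =
          e2 (gr T) (S.filter (· < k)) + 2 * (nb (gr T) (S.filter (· < k)) k).card :=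
        K3A.e2_ins (gr T) h2
      have h4 : (nb (gr T) (S.filter (· < k)) k).card ≤ ls (fun x => decide (x ∈ S)) (T k) := by
        refine card_le_ls ?_
        intro u hu
        rw [mem_nb, mem_filter] at hu
        obtain ⟨⟨h5, h6⟩, h7 | h7⟩ := hu
        · exact ⟨h7.2, decide_eq_true h5⟩
        · omega
      rw [h1, h3, decide_eq_true hk]
      have : (true : Bool).toNat = 1 := rfl
      rw [this, one_mul]
      omega
    · have h1 : S.filter (· < k + 1) = S.filter (· < k) := by
        ext u
        rw [mem_filter, mem_filter]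
        constructor
        · rintro ⟨h1, h2⟩
          refine ⟨h1, ?_⟩
          have : u ≠ k := fun h3 => hk (h3 ▸ h1)
          omega
        · rintro ⟨h1, h2⟩
          exact ⟨h1, by omega⟩
      rw [h1]
      omega

theorem cn_eq {S : Finset ℕ} {n : ℕ} (hS : S ⊆ range n) :
    cn (fun x => decide (x ∈ S)) n = S.card := by
  unfold cn
  rw [← Finset.sum_subset hS]
  · rw [Finset.card_eq_sum_ones]
    refine sum_congr rfl ?_
    intro x hx
    show (decide (x ∈ S)).toNat = 1
    rw [decide_eq_true hx]
    rfl
  · intro x _ hx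
    show (decide (x ∈ S)).toNat = 0
    rw [decide_eq_false hx]
    rfl

theorem PC.pc {θ v : ℝ} {n al : ℕ} (h : PC θ n al v) : K3S.Pc (1 + θ) n al := by
  obtain ⟨T, a, b, c, h1, h2, h3, h4⟩ := h
  refine K3S.Pc.ofNat (gr T) ?_ ?_
  · intro S hS hI
    rw [← cn_eq hS]
    refine (h4 _ ?_).1
    refine sum_eq_zero ?_
    intro x hx
    by_cases hxS : x ∈ S
    · rw [ls_zero, mul_zero]
      intro u hu
      have hux := h2 x (mem_range.1 hx) u hu
      refine decide_eq_false ?_
      intro huS
      exact hI hxS huS (by omega) (Or.inl ⟨hux, hu⟩)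
    · show (decide (x ∈ S)).toNat * _ = 0
      rw [decide_eq_false hxS]
      exact zero_mul _
  · intro S hS hc
    have h5 := e2_le (T := T) (S := S) n
    have h6 : S.filter (· < n) = S := by
      rw [filter_eq_self]
      intro x hx
      exact mem_range.1 (hS hx)
    rw [h6] at h5
    have h7 := (h3 (fun x => decide (x ∈ S)) (by rw [cn_eq hS]; exact hc)).1
    rw [cn_eq hS] at h7
    have h8 : (e2 (gr T) S : ℝ) ≤ 2 * (en T (fun x => decide (x ∈ S)) n : ℝ) := by
      exact_mod_cast h5
    linarith

end Pool.Agent.TwoDens.K3U
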