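import Pool.Agent.K3U.Arith

/-!
Partial chains are extended by small and large blocks.
-/

open Finset

namespace Pool.Agent.TwoDens.K3U

theorem PC.stepU {θ v : ℝ} {n al : ℕ} (h : PC θ n al v) (t1 : 1 / 2 ≤ θ) (v0 : 1 - θ ≤ v)
    (v1 : v ≤ 2 - 2 * θ) : PC θ (n + 3) (al + 1) (v + 3 * θ - 2) := by
  obtain ⟨T, a, b, c, h1, h2, h3, h4⟩ := h
  obtain ⟨L, hL⟩ : ∃ L : List (List ℕ), L = [[a, b], [n], [n + 1, c]] := ⟨_, rfl⟩
  have e0 : ext T n L n = [a, b] := by
    rw [show ext T n L n = ext T n L (n + 0) from rfl, ext_add, hL]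
    rfl
  have e1 : ext T n L (n + 1) = [n] := by
    rw [ext_add, hL]
    rfl
  have e2 : ext T n L (n + 2) = [n + 1, c] := by
    rw [ext_add, hL]
    rfl
  have hc : ∀ s : ℕ → Bool, cn s (n + 3) =
      cn s n + ((s n).toNat + (s (n + 1)).toNat + (s (n + 2)).toNat) := by
    intro s
    rw [show n + 3 = n + 1 + 1 + 1 from rfl, cn_succ, cn_succ, cn_succ]
    ring
  have he : ∀ s : ℕ → Bool, en (ext T n L) s (n + 3) =
      en T s n + uE (s a) (s b) (s c) (s n) (s (n + 1)) (s (n + 2)) := by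
    intro s
    rw [show n + 3 = n + 1 + 1 + 1 from rfl, en_succ, en_succ, en_succ, en_ext, e0, e1,
      show n + 1 + 1 = n + 2 from rfl, e2]
    unfold uE
    simp only [ls]
    ring
  refine ⟨ext T n L, n, n + 2, n + 1, ⟨by omega, by omega, by omega, by omega, by omega, by omega⟩,
    ?_, ?_, ?_⟩
  · intro x hx u hu
    rcases Nat.lt_or_ge x n with h | h
    · rw [ext_lt h] at hu
      exact h2 x h u hu
    · have hx' : x = n ∨ x = n + 1 ∨ x = n + 2 := by omega
      rcases hx' with rfl | rfl | rfl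
      · rw [e0] at hu
        simp only [List.mem_cons, List.not_mem_nil, or_false] at hu
        omega
      · rw [e1] at hu
        simp only [List.mem_cons, List.not_mem_nil, or_false] at hu
        omega
      · rw [e2] at hu
        simp only [List.mem_cons, List.not_mem_nil, or_false] at hu
        omega
  · intro s hs
    rw [hc] at hs ⊢
    rw [he]
    exact arith_u t1 v0 v1 (pre_of h1 h2 h3 s) hs
  · intro s hs
    rw [he] at hs
    rw [hc]
    have h5 := h4 s (by omega)
    have h6 : uE (s a) (s b) (s c) (s n) (s (n + 1)) (s (n + 2)) = 0 := by omega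
    clear hs he hc e0 e1 e2
    revert h5 h6
    cases s a <;> cases s b <;> cases s c <;> cases s n <;> cases s (n + 1) <;>
      cases s (n + 2) <;> simp [uE] <;> omega

theorem PC.stepH {θ v : ℝ} {n al : ℕ} (h : PC θ n al v) (t1 : 1 / 2 ≤ θ) (t2 : θ ≤ 4 / 7)
    (v1 : v ≤ 2 - 2 * θ) : PC θ (n + 8) (al + 3) (v + 8 * θ - 4) := by
  obtain ⟨T, a, b, c, h1, h2, h3, h4⟩ := h
  obtain ⟨L, hL⟩ : ∃ L : List (List ℕ), L = [[b], [n], [n + 1, a], [n + 2], [n + 3, c],
    [n + 4, n], [n + 1], [n + 3, n + 6]] := ⟨_, rfl⟩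
  have e0 : ext T n L n = [b] := by
    rw [show ext T n L n = ext T n L (n + 0) from rfl, ext_add, hL]
    rfl
  have e1 : ext T n L (n + 1) = [n] := by
    rw [ext_add, hL]
    rfl
  have e2 : ext T n L (n + 2) = [n + 1, a] := by
    rw [ext_add, hL]
    rfl
  have e3 : ext T n L (n + 3) = [n + 2] := by
    rw [ext_add, hL]
    rfl
  have e4 : ext T n L (n + 4) = [n + 3, c] := by
    rw [ext_add, hL]
    rfl
  have e5 : ext T n L (n + 5) = [n + 4, n] := by
    rw [ext_add, hL]
    rfl
  have e6 : ext T n L (n + 6) = [n + 1] := by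
    rw [ext_add, hL]
    rfl
  have e7 : ext T n L (n + 7) = [n + 3, n + 6] := by
    rw [ext_add, hL]
    rfl
  have hc : ∀ s : ℕ → Bool, cn s (n + 8) =
      cn s n + hN (s n) (s (n + 1)) (s (n + 2)) (s (n + 3)) (s (n + 4)) (s (n + 5)) (s (n + 6))
        (s (n + 7)) := by
    intro s
    rw [show n + 8 = n + 1 + 1 + 1 + 1 + 1 + 1 + 1 + 1 from rfl, cn_succ, cn_succ, cn_succ,
      cn_succ, cn_succ, cn_succ, cn_succ, cn_succ]
    unfold hN
    simp only [Nat.add_assoc]
  have he : ∀ s : ℕ → Bool, en (ext T n L) s (n + 8) =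
      en T s n + hE (s a) (s b) (s c) (s n) (s (n + 1)) (s (n + 2)) (s (n + 3)) (s (n + 4))
        (s (n + 5)) (s (n + 6)) (s (n + 7)) := by
    intro s
    have k1 := en_succ (ext T n L) s n
    have k2 := en_succ (ext T n L) s (n + 1)
    have k3 := en_succ (ext T n L) s (n + 2)
    have k4 := en_succ (ext T n L) s (n + 3)
    have k5 := en_succ (ext T n L) s (n + 4)
    have k6 := en_succ (ext T n L) s (n + 5)
    have k7 := en_succ (ext T n L) s (n + 6)
    have k8 := en_succ (ext T n L) s (n + 7)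
    simp only [Nat.add_assoc, Nat.reduceAdd] at k1 k2 k3 k4 k5 k6 k7 k8
    rw [k8, k7, k6, k5, k4, k3, k2, k1, en_ext, e0, e1, e2, e3, e4, e5, e6, e7]
    unfold hE
    simp only [ls]
    ring
  have hf : ∀ s : ℕ → Bool, _ := fun s => hfact (s a) (s b) (s c) (s n) (s (n + 1)) (s (n + 2))
    (s (n + 3)) (s (n + 4)) (s (n + 5)) (s (n + 6)) (s (n + 7))
  refine ⟨ext T n L, n + 5, n + 7, n + 6, ⟨by omega, by omega, by omega, by omega, by omega,
    by omega⟩, ?_, ?_, ?_⟩
  · intro x hx u hu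
    rcases Nat.lt_or_ge x n with h | h
    · rw [ext_lt h] at hu
      exact h2 x h u hu
    · obtain ⟨k, rfl⟩ : ∃ k, x = n + k := ⟨x - n, by omega⟩
      have hk : k < 8 := by omega
      interval_cases k
      · rw [Nat.add_zero, e0] at hu
        simp only [List.mem_cons, List.not_mem_nil, or_false] at hu
        omega
      all_goals
        first
          | rw [e1] at hu
          | rw [e2] at hu
          | rw [e3] at hu
          | rw [e4] at hu
          | rw [e5] at hu
          | rw [e6] at hu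
          | rw [e7] at hu
        simp only [List.mem_cons, List.not_mem_nil, or_false] at hu
        omega
  · intro s hs
    rw [hc] at hs ⊢
    rw [he]
    have h5 := hf s
    simp only [Bool.and_eq_true, decide_eq_true_eq] at h5
    exact arith_h t1 t2 v1 h5.1.1.1.1 h5.1.1.1.2 h5.1.1.2 h5.1.2 (pre_of h1 h2 h3 s) hs
  · intro s hs
    rw [he] at hs
    rw [hc]
    have h5 := h4 s (by omega)
    have h6 := hf s
    simp only [Bool.and_eq_true, decide_eq_true_eq] at h6
    have h7 := h6.2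
    have h8 : hE (s a) (s b) (s c) (s n) (s (n + 1)) (s (n + 2)) (s (n + 3)) (s (n + 4))
        (s (n + 5)) (s (n + 6)) (s (n + 7)) = 0 := by omega
    rw [h8] at h7
    clear hs he hc h8 h6 hf e0 e1 e2 e3 e4 e5 e6 e7
    obtain ⟨m, hm⟩ : ∃ m, m = hN (s n) (s (n + 1)) (s (n + 2)) (s (n + 3)) (s (n + 4))
      (s (n + 5)) (s (n + 6)) (s (n + 7)) := ⟨_, rfl⟩
    rw [← hm] at h7 ⊢
    unfold factI at h7
    revert h5 h7
    cases s a <;> cases s b <;> cases s c <;> cases s (n + 5) <;> cases s (n + 6) <;>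
      cases s (n + 7) <;> simp <;> omega

end Pool.Agent.TwoDens.K3U
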