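import Pool.Agent.K3U.Step

/-!
The chains for all pairs `(s, i)` with `2 s < 3 i`, `13 i + 2 ≤ 10 s`: graphs with `2 s + i`
vertices and independence number at most `s`.
-/

open Finset

namespace Pool.Agent.TwoDens.K3U

/-- the lists of a cycle of length five -/
def T5 : ℕ → List ℕ := fun x => if x = 1 then [0] else if x = 2 then [1] else
  if x = 3 then [2] else if x = 4 then [3, 0] else []

theorem PC.start {θ : ℝ} (t1 : 1 / 2 ≤ θ) : PC θ 5 2 θ := by
  have hc : ∀ s : ℕ → Bool, cn s 5 =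
      (s 0).toNat + (s 1).toNat + (s 2).toNat + (s 3).toNat + (s 4).toNat := by
    intro s
    unfold cn
    simp [sum_range_succ]
  have he : ∀ s : ℕ → Bool, en T5 s 5 =
      (s 1).toNat * (s 0).toNat + (s 2).toNat * (s 1).toNat + (s 3).toNat * (s 2).toNat +
        (s 4).toNat * ((s 3).toNat + (s 0).toNat) := by
    intro s
    unfold en
    simp [sum_range_succ, T5, ls]
  refine ⟨T5, 2, 4, 3, ⟨by omega, by omega, by omega, by omega, by omega, by omega⟩, ?_, ?_, ?_⟩
  · intro x hx u hu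
    have hx' : x = 0 ∨ x = 1 ∨ x = 2 ∨ x = 3 ∨ x = 4 := by omega
    rcases hx' with rfl | rfl | rfl | rfl | rfl <;> simp [T5] at hu <;> omega
  · intro s hs
    rw [hc] at hs ⊢
    rw [he]
    unfold Inv
    clear hc he
    revert hs
    cases s 0 <;> cases s 1 <;> cases s 2 <;> cases s 3 <;> cases s 4 <;>
      simp only [Bool.toNat_true, Bool.toNat_false] <;> intro hs <;>
      first
        | (exfalso; omega)
        | (push_cast
           refine ⟨by linarith, fun x y z => ?_, fun x y z => ?_⟩ <;>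
           first
            | exact absurd x (by decide)
            | exact absurd y (by decide)
            | exact absurd z (by decide)
            | linarith
            | (left; linarith))
  · intro s hs
    rw [he] at hs
    rw [hc]
    clear hc he
    revert hs
    cases s 0 <;> cases s 1 <;> cases s 2 <;> cases s 3 <;> cases s 4 <;> simp

theorem PC.congr {θ v v' : ℝ} {n n' al al' : ℕ} (h : PC θ n al v) (hn : n = n') (ha : al = al')
    (hv : v = v') : PC θ n' al' v' := by
  rw [← hn, ← ha, ← hv]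
  exact h

/-- the walk along the chain: a small block whenever it is possible, otherwise a large block -/
theorem walk {K e : ℕ} (he : 3 * e + 1 ≤ 4 * K) {θ D : ℝ} (hD : D = 8 * (K : ℝ) + 3 * e + 5)
    (hθ : θ = (4 * (K : ℝ) + 2 * e + 3) / D) : ∀ t, t ≤ K + e + 1 →
    ∃ h u V : ℕ, h + u = t ∧ h ≤ K ∧ u ≤ e + 1 ∧
      V + (4 * K + 1) * u = 2 * e + 2 + 4 * (e + 1) * h ∧ e + 1 ≤ V ∧
      V ≤ 2 * (4 * K + e + 2) ∧ PC θ (8 + 8 * h + 3 * u) (3 + 3 * h + u) ((V : ℝ) / D) := by
  have hDpos : 0 < D := by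
    rw [hD]
    positivity
  have hθD : θ * D = 4 * K + 2 * e + 3 := by
    rw [hθ]
    exact div_mul_cancel₀ _ hDpos.ne'
  have heR : 3 * (e : ℝ) + 1 ≤ 4 * K := by exact_mod_cast he
  have e0R : (0 : ℝ) ≤ e := Nat.cast_nonneg _
  have t1 : 1 / 2 ≤ θ := by
    rw [hθ, div_le_div_iff₀ (by norm_num) hDpos, hD]
    linarith
  have q1 : 1 - θ = ((4 * K + e + 2 : ℕ) : ℝ) / D := by
    rw [eq_div_iff hDpos.ne', sub_mul, hθD, hD]
    push_cast
    ring
  have q2 : 2 - 2 * θ = ((2 * (4 * K + e + 2) : ℕ) : ℝ) / D := by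
    rw [eq_div_iff hDpos.ne', sub_mul, mul_assoc, hθD, hD]
    push_cast
    ring
  intro t
  induction t with
  | zero =>
    intro _
    refine ⟨0, 0, 2 * e + 2, rfl, Nat.zero_le _, Nat.zero_le _, by ring, by omega, by omega, ?_⟩
    have h := (PC.start t1).stepU t1 (by linarith) (by
      rw [q2, hθ]
      refine div_le_div_of_nonneg_right ?_ hDpos.le
      push_cast
      linarith)
    refine h.congr (by omega) (by omega) ?_
    rw [eq_div_iff hDpos.ne', sub_mul, add_mul, mul_assoc, hθD, hD]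
    push_cast
    ring
  | succ t ih =>
    intro ht
    obtain ⟨h, u, V, h1, h2, h3, h4, h5, h6, h7⟩ := ih (by omega)
    have v1 : (V : ℝ) / D ≤ 2 - 2 * θ := by
      rw [q2]
      refine div_le_div_of_nonneg_right ?_ hDpos.le
      exact_mod_cast h6
    rcases Nat.lt_or_ge V (4 * K + e + 2) with hV | hV
    · -- a large block
      have hK : h < K := by
        by_contra hcon
        have hh : h = K := by omega
        have hu : u ≤ e := by omega
        rw [hh] at h4
        have g1 : (4 * K + 1) * u ≤ (4 * K + 1) * e := Nat.mul_le_mul_left _ hu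
        have g2 : 4 * (e + 1) * K = (4 * K + 1) * e + 4 * K - e + 0 := by
          have : 4 * (e + 1) * K + e = (4 * K + 1) * e + 4 * K := by ring
          omega
        have g3 : 4 * (e + 1) * K + e = (4 * K + 1) * e + 4 * K := by ring
        omega
      have t2 : θ ≤ 4 / 7 := by
        rw [hθ, div_le_div_iff₀ hDpos (by norm_num), hD]
        linarith
      refine ⟨h + 1, u, V + 4 * (e + 1), by omega, hK, h3, ?_, by omega, by omega, ?_⟩
      · have : 4 * (e + 1) * (h + 1) = 4 * (e + 1) * h + 4 * (e + 1) := by ring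
        omega
      · refine (h7.stepH t1 t2 v1).congr (by omega) (by omega) ?_
        rw [eq_div_iff hDpos.ne', sub_mul, add_mul, div_mul_cancel₀ _ hDpos.ne', mul_assoc, hθD, hD]
        push_cast
        ring
    · -- a small block
      have hu : u ≤ e := by
        by_contra hcon
        have hh : u = e + 1 := by omega
        have hK : h + 1 ≤ K := by omega
        rw [hh] at h4
        have g1 : 4 * (e + 1) * (h + 1) ≤ 4 * (e + 1) * K := Nat.mul_le_mul_left _ hK
        have g2 : 4 * (e + 1) * (h + 1) = 4 * (e + 1) * h + 4 * (e + 1) := by ring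
        have g3 : (4 * K + 1) * (e + 1) = 4 * (e + 1) * K + (e + 1) := by ring
        omega
      obtain ⟨V', hV'⟩ : ∃ V', V = V' + (4 * K + 1) := ⟨V - (4 * K + 1), by omega⟩
      refine ⟨h, u + 1, V', by omega, h2, by omega, ?_, by omega, by omega, ?_⟩
      · have : (4 * K + 1) * (u + 1) = (4 * K + 1) * u + (4 * K + 1) := by ring
        omega
      · refine (h7.stepU t1 ?_ v1).congr (by omega) (by omega) ?_
        · rw [q1]
          refine div_le_div_of_nonneg_right ?_ hDpos.le
          exact_mod_cast hV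
        · rw [eq_div_iff hDpos.ne', sub_mul, add_mul, div_mul_cancel₀ _ hDpos.ne', mul_assoc, hθD,
            hD, hV']
          push_cast
          ring

/-- the graph -/
theorem piece (s i : ℕ) (h1 : 2 * s < 3 * i) (h2 : 13 * i + 2 ≤ 10 * s) :
    K3S.Pc (1 + (2 * (i : ℝ) - 3) / (2 * (s : ℝ) + i - 6)) (2 * s + i) s := by
  obtain ⟨K, hK⟩ : ∃ K, s = i + K + 1 := ⟨s - i - 1, by omega⟩
  obtain ⟨e, he⟩ : ∃ e, 3 * i = 2 * s + e + 1 := ⟨3 * i - 2 * s - 1, by omega⟩
  have hi : i = 2 * K + e + 3 := by omega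
  have hs : s = 3 * K + e + 4 := by omega
  have heK : 3 * e + 1 ≤ 4 * K := by omega
  obtain ⟨D, hD⟩ : ∃ D : ℝ, D = 8 * (K : ℝ) + 3 * e + 5 := ⟨_, rfl⟩
  obtain ⟨θ, hθ⟩ : ∃ θ : ℝ, θ = (4 * (K : ℝ) + 2 * e + 3) / D := ⟨_, rfl⟩
  obtain ⟨h, u, V, k1, k2, k3, _, _, _, k7⟩ := walk heK hD hθ (K + e + 1) le_rfl
  have hh : h = K := by omega
  have hu : u = e + 1 := by omega
  have k8 := k7.pc
  have e1 : 1 + (2 * (i : ℝ) - 3) / (2 * (s : ℝ) + i - 6) = 1 + θ := by
    rw [hθ, hD, hi, hs]
    push_cast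
    congr 2 <;> ring
  have e2 : 2 * s + i = 8 + 8 * h + 3 * u := by omega
  have e3 : s = 3 + 3 * h + u := by omega
  rw [e1, e2]
  rw [← e3] at k8
  exact k8

/-- the upper bound for `m = 2 s + i` -/
theorem upperH (s i : ℕ) (h1 : 2 * s < 3 * i) (h2 : 13 * i + 2 ≤ 10 * s) :
    minTwoDensity (2 * s + i) (s + 1) ≤
      (2 * (s : ℝ) + 3 * i - 9) / (2 * (s : ℝ) + i - 6) := by
  have h3 : (3 : ℝ) ≤ i := by
    have : 3 ≤ i := by omega
    exact_mod_cast this
  have h4 : (4 : ℝ) ≤ s := by
    have : 4 ≤ s := by omega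
    exact_mod_cast this
  have h5 : 0 < 2 * (s : ℝ) + i - 6 := by linarith
  have h6 : 0 ≤ (2 * (i : ℝ) - 3) / (2 * (s : ℝ) + i - 6) := div_nonneg (by linarith) h5.le
  have h7 := (piece s i h1 h2).min (r := s + 1) (m := 2 * s + i) (by linarith) le_rfl
    (Nat.lt_succ_self _)
  have h8 : 1 + (2 * (i : ℝ) - 3) / (2 * (s : ℝ) + i - 6) =
      (2 * (s : ℝ) + 3 * i - 9) / (2 * (s : ℝ) + i - 6) := by
    field_simp
    ring
  rw [h8] at h7
  exact h7

end Pool.Agent.TwoDens.K3U
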